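import Pool.Agent.H424.BY.Crit
import Pool.Agent.TH942.ES.NF

/-!
# Elliptic curves over number fields: the products of Birch and Swinnerton-Dyer
-/

set_option autoImplicit false

open MeasureTheory Filter Topology Set Complex NumberField IsDedekindDomain
open Pool.Agent.TH942.ES
open Pool.Agent.TH270.MS (Pl)
open Pool.Agent.H921R2.TatePole (nm two_le_nm nm_summable)

namespace Pool.Agent.H424.BY

/-! ### shifts -/

theorem order_shift (F : ℂ → ℂ) (c : ℂ) :
    analyticOrderAt (fun s => F (c + s)) 0 = analyticOrderAt F c := by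
  have hg : AnalyticAt ℂ (fun s : ℂ => c + s) 0 := by fun_prop
  have hd : deriv (fun s : ℂ => c + s) 0 ≠ 0 := by
    rw [deriv_const_add, deriv_id'']
    exact one_ne_zero
  have h := analyticOrderAt_comp_of_deriv_ne_zero (f := F) hg hd
  rw [add_zero] at h
  exact h

theorem grow_shift {F : ℂ → ℂ} {c : ℝ} {η C : ℝ} {κ : ℕ}
    (h : ∀ s : ℂ, c - η < s.re → ‖F s‖ ≤ C * (1 + ‖s‖) ^ κ) :
    ∀ s : ℂ, -η < s.re → ‖F ((c : ℂ) + s)‖ ≤ |C| * (1 + |c|) ^ κ * (1 + ‖s‖) ^ κ := by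
  intro s hs
  have h1 := h ((c : ℂ) + s) (by
    rw [Complex.add_re, Complex.ofReal_re]
    linarith)
  refine h1.trans ?_
  have h2 : ‖(c : ℂ) + s‖ ≤ |c| + ‖s‖ := by
    refine (norm_add_le _ _).trans ?_
    rw [Complex.norm_real, Real.norm_eq_abs]
  have h3 : 1 + ‖(c : ℂ) + s‖ ≤ (1 + |c|) * (1 + ‖s‖) := by
    have := mul_nonneg (abs_nonneg c) (norm_nonneg s)
    nlinarith
  calc C * (1 + ‖(c : ℂ) + s‖) ^ κ ≤ |C| * (1 + ‖(c : ℂ) + s‖) ^ κ :=
        mul_le_mul_of_nonneg_right (le_abs_self C) (by positivity)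
    _ ≤ |C| * ((1 + |c|) * (1 + ‖s‖)) ^ κ := by gcongr
    _ = _ := by rw [mul_pow]; ring

/-! ### the curve -/

section curve

variable {K : Type} [Field K] [NumberField K] {a b : 𝓞 K}

/-- the norms of the good primes -/
noncomputable abbrev NV (a b : 𝓞 K) : {v : HeightOneSpectrum (𝓞 K) // GoodV a b v} → ℕ := fun v => nm v.1

theorem curve_real (v : {v : HeightOneSpectrum (𝓞 K) // GoodV a b v}) (k : ℕ) :
    (∑ i, zv (NV a b) (alV a b) v i ^ k).im = 0 := by
  have h1 : zv (NV a b) (alV a b) v 1 = (starRingEnd ℂ) (zv (NV a b) (alV a b) v 0) := by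
    unfold zv alV
    rw [rt_conj, map_div₀, Complex.conj_ofReal]
  rw [Fin.sum_univ_two, h1, ← map_pow, Complex.add_conj]
  exact Complex.ofReal_im _

/-- the incomplete L-series -/
noncomputable def LV (a b : 𝓞 K) (s : ℂ) : ℂ := ∏' v : {v : HeightOneSpectrum (𝓞 K) // GoodV a b v}, efV a b v.1 s

theorem LE_eq_LV (s : ℂ) : Pool.Agent.TH942.ES.LE (NV a b) (alV a b) s = LV a b (1 + s) := by
  unfold Pool.Agent.TH942.ES.LE LV
  exact tprod_congr fun v => curve_factor v s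

/-- `F` is an entire continuation with polynomial growth across the line `Re s = 1` -/
structure CtV (a b : 𝓞 K) (F : ℂ → ℂ) : Prop where
  entire : Differentiable ℂ F
  eq : ∀ s : ℂ, 3 / 2 < s.re → F s = LV a b s
  growth : ∃ (η C : ℝ) (κ : ℕ), 0 < η ∧ ∀ s : ℂ, 1 - η < s.re → ‖F s‖ ≤ C * (1 + ‖s‖) ^ κ

theorem CtV.ex {F : ℂ → ℂ} (h : CtV a b F) : Ex (NV a b) (alV a b) (fun s => F (1 + s)) where
  E := curve_sys a b
  hreal := curve_real
  diff := h.entire.comp (differentiable_id.const_add 1)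
  grow := by
    obtain ⟨η, C, κ, hη, hg⟩ := h.growth
    refine ⟨η, |C| * (1 + |(1 : ℝ)|) ^ κ, κ, hη, fun s hs => ?_⟩
    have := grow_shift (c := 1) hg s hs
    push_cast at this
    exact this
  eq := fun s hs => by
    rw [LE_eq_LV]
    exact h.eq _ (by
      rw [Complex.add_re, Complex.one_re]
      linarith)

/-- the logarithm of the product of the `(N_v + 1)/q_v` over the good primes with `q_v ≤ n` -/
theorem log_prod (a b : 𝓞 K) (n : ℕ) : Real.log (∏ᶠ (v : HeightOneSpectrum (𝓞 K)) (_ : GoodV a b v ∧ nm v ≤ n),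
    (((ptsV a b v : ℝ) + 1) / nm v)) = Lp (NV a b) (alV a b) n := by
  classical
  have hfin := (curve_sys a b).fin_le (n : ℝ)
  have hmap : {v : HeightOneSpectrum (𝓞 K) | GoodV a b v ∧ nm v ≤ n} =
      Subtype.val '' {v : {v : HeightOneSpectrum (𝓞 K) // GoodV a b v} | (NV a b v : ℝ) ≤ n} := by
    ext v
    simp only [Set.mem_ofPred_eq, Set.mem_image, Subtype.exists, exists_and_right, exists_eq_right]
    constructor
    · rintro ⟨h1, h2⟩
      exact ⟨h1, by exact_mod_cast h2⟩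
    · rintro ⟨h1, h2⟩
      exact ⟨h1, by exact_mod_cast h2⟩
  have hfin' : {v : HeightOneSpectrum (𝓞 K) | GoodV a b v ∧ nm v ≤ n}.Finite := by
    rw [hmap]
    exact hfin.image _
  have e1 : ∏ᶠ (v : HeightOneSpectrum (𝓞 K)) (_ : GoodV a b v ∧ nm v ≤ n), (((ptsV a b v : ℝ) + 1) / nm v) =
      ∏ v ∈ hfin'.toFinset, (((ptsV a b v : ℝ) + 1) / nm v) :=
    finprod_mem_eq_finite_toFinset_prod (fun v => ((ptsV a b v : ℝ) + 1) / nm v) hfin'
  have e2 : Lp (NV a b) (alV a b) n = ∑ v ∈ hfin.toFinset, cv (NV a b) (alV a b) v :=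
    finsum_mem_eq_finite_toFinset_sum (fun v => cv (NV a b) (alV a b) v) hfin
  have hpos : ∀ v : HeightOneSpectrum (𝓞 K), 0 < ((ptsV a b v : ℝ) + 1) / nm v := fun v => by
    have hp2 : (2 : ℝ) ≤ nm v := by exact_mod_cast two_le_nm v
    have : (0 : ℝ) ≤ ptsV a b v := Nat.cast_nonneg _
    positivity
  rw [e1, e2, Real.log_prod (fun v _ => (hpos v).ne')]
  have e3 : hfin'.toFinset = hfin.toFinset.image Subtype.val := by
    ext v
    rw [Set.Finite.mem_toFinset, hmap, Finset.mem_image]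
    simp only [Set.mem_image, Set.Finite.mem_toFinset]
  rw [e3, Finset.sum_image (fun v _ w _ h => Subtype.ext h)]
  exact Finset.sum_congr rfl fun v _ => (curve_cv v).symm

theorem prod_pos (a b : 𝓞 K) (n : ℕ) : 0 < ∏ᶠ (v : HeightOneSpectrum (𝓞 K)) (_ : GoodV a b v ∧ nm v ≤ n),
    (((ptsV a b v : ℝ) + 1) / nm v) := by
  refine finprod_mem_induction (fun x : ℝ => 0 < x) one_pos (fun x y hx hy => mul_pos hx hy) fun v _ => ?_
  have hp2 : (2 : ℝ) ≤ nm v := by exact_mod_cast two_le_nm v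
  have : (0 : ℝ) ≤ ptsV a b v := Nat.cast_nonneg _
  positivity

theorem log_near (a b : 𝓞 K) : ∃ B : ℝ, ∀ n : ℕ, 1 ≤ n → |Real.log (∏ᶠ (v : HeightOneSpectrum (𝓞 K))
    (_ : GoodV a b v ∧ nm v ≤ n), (((ptsV a b v : ℝ) + 1) / nm v)) + Pl (NV a b) (alV a b) n| ≤ B := by
  obtain ⟨B, -, hB⟩ := near (curve_sys a b) curve_real
  exact ⟨B, fun n _ => by
    rw [log_prod]
    exact hB n⟩

end curve

end Pool.Agent.H424.BY
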