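import Pool.Agent.H424.BY.Main
import Pool.Agent.H424.BX.Crit

/-!
# Criteria with exceptional cut-offs, for systems of primes
-/

set_option autoImplicit false

open MeasureTheory Filter Topology Set Complex
open Pool.Agent.TH942.ES
open Pool.Agent.TH270.MS (Pl Mc DvR)
open Pool.Agent.H424.BX (cnt cnt_mono lsum lsum_compl inter_unbounded key_end)

namespace Pool.Agent.H424.BY

variable {X : Type} {d : ℕ} {N : X → ℕ} {α : X → Fin d → ℂ} {Ψ : ℂ → ℂ}

/-- from the mean square to the logarithmic measure -/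
theorem summ_of_int {h : ℝ → ℝ} (hcon : ∀ x : ℝ, 0 ≤ x → h (⌊x⌋₊ : ℝ) = h x) {ρ κ : ℝ}
    (hint : IntegrableOn (fun x : ℝ => (h x - ρ * Real.log (Real.log x) - κ) ^ 2 / x) (Ioi (Real.exp 1)))
    {ε : ℝ} (hε : 0 < ε) :
    Summable fun n : ℕ => if ε < |h n - ρ * Real.log (Real.log n) - κ| then (1 : ℝ) / n else 0 := by
  have hll := (Pool.Agent.TH949.TX.loglog_incr.const_mul |ρ|)
  rw [mul_zero] at hll
  obtain ⟨n₁, hn₁⟩ := (Metric.tendsto_atTop.1 hll) (ε / 4) (by positivity)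
  set G : ℝ → ℝ := (Ioi (Real.exp 1)).indicator fun x : ℝ => (h x - ρ * Real.log (Real.log x) - κ) ^ 2 / x with hG
  have hGi : Integrable G := (integrable_indicator_iff measurableSet_Ioi).2 hint
  have hG0 : ∀ x, 0 ≤ G x := fun x => by
    rw [hG]
    refine indicator_nonneg (fun y hy => ?_) x
    have : 0 < y := (Real.exp_pos 1).trans hy
    positivity
  set A : ℕ → ℝ := fun n => ∫ x in (n : ℝ)..((n + 1 : ℕ) : ℝ), G x with hA
  have hA0 : ∀ n, 0 ≤ A n := fun n => by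
    refine intervalIntegral.integral_nonneg ?_ fun u _ => hG0 u
    push_cast
    linarith
  have hAs : Summable A := by
    refine summable_of_sum_range_le (c := ∫ x, G x) hA0 fun n => ?_
    have h2 : ∑ i ∈ Finset.range n, A i = ∫ x in ((0 : ℕ) : ℝ)..(n : ℝ), G x :=
      intervalIntegral.sum_integral_adjacent_intervals (a := fun n : ℕ => (n : ℝ))
        fun k _ => hGi.intervalIntegrable
    rw [h2, intervalIntegral.integral_of_le (by simp)]
    exact setIntegral_le_integral hGi (Eventually.of_forall hG0)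
  refine Summable.of_norm_bounded_eventually_nat (g := fun n => 8 / ε ^ 2 * A n) (hAs.mul_left _) ?_
  filter_upwards [eventually_ge_atTop (max n₁ 3)] with n hn
  have hn1 : n₁ ≤ n := (le_max_left _ _).trans hn
  have hn3 : 3 ≤ n := (le_max_right _ _).trans hn
  have hnr : (3 : ℝ) ≤ n := by exact_mod_cast hn3
  split_ifs with hS
  swap
  · rw [norm_zero]
    have := hA0 n
    positivity
  rw [Real.norm_eq_abs, abs_of_nonneg (by positivity)]
  have he : Real.exp 1 < 3 := by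
    have := Real.exp_one_lt_d9
    linarith
  -- the lower bound on the interval
  have hlow : ∀ x ∈ Ioo (n : ℝ) ((n + 1 : ℕ) : ℝ), (ε / 2) ^ 2 / (2 * n) ≤ G x := by
    intro x hx
    have hx1 : (n : ℝ) ≤ x := hx.1.le
    have hx2 : x < (n : ℝ) + 1 := by
      have := hx.2
      push_cast at this
      exact this
    have hxe : Real.exp 1 < x := by linarith
    rw [hG, indicator_of_mem (show x ∈ Ioi (Real.exp 1) from hxe)]
    have hfl : ⌊x⌋₊ = n := by
      rw [Nat.floor_eq_iff (by linarith)]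
      exact ⟨hx1, hx2⟩
    have k2 : h x = h n := by
      rw [← hcon x (by linarith), hfl]
    have k3 : h x - ρ * Real.log (Real.log x) - κ = (h n - ρ * Real.log (Real.log n) - κ) -
        ρ * (Real.log (Real.log x) - Real.log (Real.log n)) := by
      rw [k2]
      ring
    have k4 := hn₁ n hn1
    rw [Real.dist_eq, sub_zero] at k4
    have hl0 : 0 < Real.log n := Real.log_pos (by linarith)
    have k5 : 0 ≤ Real.log (Real.log x) - Real.log (Real.log n) := by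
      have := Real.log_le_log hl0 (Real.log_le_log (by linarith) hx1)
      linarith
    have k6 : Real.log (Real.log x) - Real.log (Real.log n) ≤
        Real.log (Real.log ((n : ℝ) + 1)) - Real.log (Real.log n) := by
      have := Real.log_le_log (Real.log_pos (by linarith)) (Real.log_le_log (by linarith) hx2.le)
      linarith
    have k7 : |ρ * (Real.log (Real.log x) - Real.log (Real.log n))| ≤ ε / 4 := by
      rw [abs_mul, abs_of_nonneg k5]
      have k8 := mul_le_mul_of_nonneg_left k6 (abs_nonneg ρ)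
      have k9 := (le_abs_self _).trans k4.le
      linarith
    have k10 : ε / 2 ≤ |h x - ρ * Real.log (Real.log x) - κ| := by
      rw [k3]
      have e1 := abs_sub_abs_le_abs_sub (h n - ρ * Real.log (Real.log n) - κ)
        (ρ * (Real.log (Real.log x) - Real.log (Real.log n)))
      linarith
    have k11 : (ε / 2) ^ 2 ≤ (h x - ρ * Real.log (Real.log x) - κ) ^ 2 := by
      rw [← sq_abs (h x - ρ * Real.log (Real.log x) - κ)]
      exact pow_le_pow_left₀ (by positivity) k10 2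
    refine div_le_div₀ (by positivity) k11 (by linarith) ?_
    linarith
  have h3 : (ε / 2) ^ 2 / (2 * n) ≤ A n := by
    have hle : (n : ℝ) ≤ ((n + 1 : ℕ) : ℝ) := by push_cast; linarith
    have h4 := intervalIntegral.integral_mono_on_of_le_Ioo hle (by simp) hGi.intervalIntegrable hlow
      (μ := volume)
    rw [intervalIntegral.integral_const, smul_eq_mul] at h4
    push_cast at h4
    rw [add_sub_cancel_left, one_mul] at h4
    have h5 : A n = ∫ x in (n : ℝ)..((n : ℝ) + 1), G x := by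
      rw [hA]
      push_cast
      rfl
    rw [h5]
    exact h4
  calc (1 : ℝ) / n = 8 / ε ^ 2 * ((ε / 2) ^ 2 / (2 * n)) := by
        have : (n : ℝ) ≠ 0 := by positivity
        field_simp
        norm_num
    _ ≤ _ := by gcongr

/-- the Riemann hypothesis -/
def NZ (Ψ : ℂ → ℂ) : Prop := ∀ s : ℂ, 0 < s.re → Ψ s ≠ 0

/-- all but `M^(1-δ)` of the numbers `n ≤ M` satisfy `|f n| ≤ n^ε` -/
def Sav (f : ℕ → ℝ) : Prop := ∀ ε : ℝ, 0 < ε → ∃ δ : ℝ, 0 < δ ∧ ∀ᶠ M : ℕ in atTop,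
  (cnt {n : ℕ | (n : ℝ) ^ ε < |f n|} M : ℝ) ≤ (M : ℝ) ^ (1 - δ)

/-- for infinitely many `M`, all but `M^(1-δ)` of the numbers `n ≤ M` satisfy `f n ≤ n^ε` -/
def SavF (f : ℕ → ℝ) : Prop := ∀ ε : ℝ, 0 < ε → ∃ δ : ℝ, 0 < δ ∧ ∃ᶠ M : ℕ in atTop,
  (cnt {n : ℕ | (n : ℝ) ^ ε < f n} M : ℝ) ≤ (M : ℝ) ^ (1 - δ)

theorem Ex.mc (H : Ex N α Ψ) : ∃ (κ : ℕ) (η C : ℝ), Mc N α Ψ Ψ 0 κ η C := by
  obtain ⟨η, C, κ, hη, hg⟩ := H.grow
  exact ⟨κ, η, C, H.E, H.hreal, hη, fun s _ => H.diff s, hg, fun s _ _ => by simp, H.eq⟩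

/-- the asymptotic outside a set of finite logarithmic measure -/
theorem rh_asy (H : Ex N α Ψ) (hz : NZ Ψ) {m : ℕ} (hm : analyticOrderAt Ψ 0 = m) :
    ∃ κ : ℝ, ∀ ε : ℝ, 0 < ε → Summable fun n : ℕ =>
      if ε < |-Pl N α n - m * Real.log (Real.log n) - κ| then (1 : ℝ) / n else 0 := by
  obtain ⟨κ, η, C, M⟩ := H.mc
  have t := M.tfae_order_real (m : ℝ)
  have t1 : ((∀ s : ℂ, 0 < s.re → Ψ s ≠ 0) ∧ ∃ m' : ℕ, (m : ℝ) = m' ∧ meromorphicOrderAt Ψ 0 = (m' : ℤ)) ↔
      ∃ A : ℝ, 0 < A ∧ IntegrableOn (fun Y : ℝ => DvR N α (m : ℝ) A Y ^ 2 / Y) (Ioi (Real.exp 1)) :=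
    t.out 0 1
  have h0 : meromorphicOrderAt Ψ 0 = (m : ℤ) := by
    rw [(H.diff.analyticAt 0).meromorphicOrderAt_eq, hm]
    rfl
  obtain ⟨A, hA, hi⟩ := t1.1 ⟨hz, m, rfl, h0⟩
  refine ⟨m * Real.eulerMascheroniConstant - Real.log A, fun ε hε => ?_⟩
  refine summ_of_int (h := fun x => -Pl N α x) (fun x hx => by rw [Pl_floor x hx]) (ρ := m)
    (κ := m * Real.eulerMascheroniConstant - Real.log A) ?_ hε
  refine hi.congr_fun (fun Y _ => ?_) measurableSet_Ioi
  simp only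
  unfold DvR
  congr 1
  ring

/-- the order of magnitude outside a set of finite logarithmic measure -/
theorem rh_ord (H : Ex N α Ψ) {f : ℕ → ℝ} {B : ℝ} (hf : ∀ n : ℕ, 1 ≤ n → |f n + Pl N α n| ≤ B)
    (hz : NZ Ψ) {m : ℕ} (hm : analyticOrderAt Ψ 0 = m) {ε : ℝ} (hε : 0 < ε) :
    Summable fun n : ℕ => if ε * Real.log (Real.log n) <
      |f n - m * Real.log (Real.log n)| then (1 : ℝ) / n else 0 := by
  obtain ⟨κ, hκ⟩ := rh_asy H hz hm
  refine Summable.of_norm_bounded_eventually_nat (hκ 1 one_pos) ?_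
  have h1 : Tendsto (fun n : ℕ => Real.log (Real.log n)) atTop atTop :=
    (Real.tendsto_log_atTop.comp Real.tendsto_log_atTop).comp tendsto_natCast_atTop_atTop
  filter_upwards [h1.eventually (eventually_ge_atTop ((1 + |κ| + B) / ε)), eventually_ge_atTop 1] with n hn hn1
  rw [div_le_iff₀ hε] at hn
  split_ifs with h2 h3 h3
  · rw [Real.norm_eq_abs, abs_of_nonneg (by positivity)]
  · exfalso
    apply h3
    have e0 := hf n hn1
    have e1 : f n - m * Real.log (Real.log n) =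
        (f n + Pl N α n) + ((-Pl N α n - m * Real.log (Real.log n) - κ) + κ) := by ring
    have e2 : |f n - m * Real.log (Real.log n)| ≤
        |f n + Pl N α n| + (|-Pl N α n - m * Real.log (Real.log n) - κ| + |κ|) := by
      rw [e1]
      exact (abs_add_le _ _).trans (add_le_add le_rfl (abs_add_le _ _))
    linarith
  · rw [norm_zero]
    positivity
  · rw [norm_zero]

/-- the general form of the first condition -/
theorem sav_of (H : Ex N α Ψ) {f : ℕ → ℝ} {B : ℝ} (hf : ∀ n : ℕ, 1 ≤ n → |f n + Pl N α n| ≤ B)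
    {θ : ℝ} (hθ : 0 ≤ θ) (hz : ∀ s : ℂ, θ < s.re → Ψ s ≠ 0) {ε : ℝ} (hε : 0 < ε) :
    ∃ δ : ℝ, 0 < δ ∧ ∀ᶠ M : ℕ in atTop,
    (cnt {n : ℕ | (n : ℝ) ^ (θ + ε) < |f n|} M : ℝ) ≤ (M : ℝ) ^ (1 - δ) := by
  set e : ℝ := min ε (1 / 2) with he
  have he0 : 0 < e := by rw [he]; positivity
  have he1 : e ≤ 1 / 2 := min_le_right _ _
  have he2 : e ≤ ε := min_le_left _ _
  refine ⟨e, he0, ?_⟩
  have h1 := upper_count H hf hθ hz (κ := θ + e) (by linarith) (by linarith) he0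
  filter_upwards [h1] with M hM
  have h2 : cnt {n : ℕ | (n : ℝ) ^ (θ + ε) < |f n|} M ≤ cnt {n : ℕ | (n : ℝ) ^ (θ + e) < |f n|} M := by
    refine cnt_mono fun n hn _ h => ?_
    have hn1 : (1 : ℝ) ≤ n := by exact_mod_cast hn
    have h' : (n : ℝ) ^ (θ + ε) < |f n| := h
    exact lt_of_le_of_lt (Real.rpow_le_rpow_of_exponent_le hn1 (by linarith)) h'
  refine le_trans (by exact_mod_cast h2) (hM.trans (le_of_eq ?_))
  congr 1
  ring

theorem savF_of_sav {f : ℕ → ℝ} (h : Sav f) : SavF f := by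
  intro ε hε
  obtain ⟨δ, hδ, h1⟩ := h ε hε
  refine ⟨δ, hδ, (h1.mono fun M hM => le_trans ?_ hM).frequently⟩
  have : cnt {n : ℕ | (n : ℝ) ^ ε < f n} M ≤ cnt {n : ℕ | (n : ℝ) ^ ε < |f n|} M :=
    cnt_mono fun n _ _ h => by
      have h' : (n : ℝ) ^ ε < f n := h
      exact lt_of_lt_of_le h' (le_abs_self _)
  exact_mod_cast this

/-- the general form of the criterion -/
theorem no_zero_of (H : Ex N α Ψ) {f : ℕ → ℝ} {B : ℝ} (hf : ∀ n : ℕ, 1 ≤ n → |f n + Pl N α n| ≤ B)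
    {θ : ℝ} (hθ : 0 ≤ θ)
    (h : ∀ ε : ℝ, 0 < ε → ∃ δ : ℝ, 0 < δ ∧ ∃ᶠ M : ℕ in atTop,
      (cnt {n : ℕ | (n : ℝ) ^ (θ + ε) < f n} M : ℝ) ≤ (M : ℝ) ^ (1 - δ)) :
    ∀ s : ℂ, θ < s.re → Ψ s ≠ 0 := by
  intro s hs h0
  obtain ⟨δ, hδ, h1⟩ := h ((s.re - θ) / 2) (by linarith)
  have h2 := up_count H hf (c := θ + (s.re - θ) / 2) (by linarith) (ρ := s) (by linarith) h0
    (half_pos hδ) 1
  obtain ⟨M, h3, h4, h5⟩ := (h1.and_eventually (h2.and (eventually_ge_atTop 2))).exists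
  simp only [one_mul] at h4
  have h6 := h4.trans h3
  have hM : (2 : ℝ) ≤ M := by exact_mod_cast h5
  have h7 : (M : ℝ) ^ (1 - δ) < (M : ℝ) ^ (1 - δ / 2) :=
    Real.rpow_lt_rpow_of_exponent_lt (by linarith) (by linarith)
  linarith

theorem sav_of_nz (H : Ex N α Ψ) {f : ℕ → ℝ} {B : ℝ} (hf : ∀ n : ℕ, 1 ≤ n → |f n + Pl N α n| ≤ B)
    (hz : NZ Ψ) : Sav f := by
  intro ε hε
  have := sav_of H hf le_rfl (θ := 0) hz hε
  simpa only [zero_add] using this

theorem nz_of_savF (H : Ex N α Ψ) {f : ℕ → ℝ} {B : ℝ} (hf : ∀ n : ℕ, 1 ≤ n → |f n + Pl N α n| ≤ B)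
    (h : SavF f) : NZ Ψ := by
  intro s hs
  refine no_zero_of H hf le_rfl (θ := 0) (fun ε hε => ?_) s hs
  simpa only [zero_add] using h ε hε

/-- **The criterion for the order.** -/
theorem crit (H : Ex N α Ψ) {f : ℕ → ℝ} {B : ℝ} (hf : ∀ n : ℕ, 1 ≤ n → |f n + Pl N α n| ≤ B) (ρ : ℝ) :
    List.TFAE [
    NZ Ψ ∧ ∃ m : ℕ, ρ = m ∧ analyticOrderAt Ψ 0 = m,
    Sav f ∧ ∀ ε : ℝ, 0 < ε → Summable fun n : ℕ => if ε * Real.log (Real.log n) <
      |f n - ρ * Real.log (Real.log n)| then (1 : ℝ) / n else 0,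
    SavF f ∧ ∀ ε : ℝ, 0 < ε → ∃ η : ℝ, 0 < η ∧ ∃ᶠ M : ℕ in atTop, η * Real.log M ≤
      lsum {n : ℕ | |f n - ρ * Real.log (Real.log n)| ≤ ε * Real.log (Real.log n)} M] := by
  tfae_have 1 → 2 := by
    rintro ⟨hz, m, rfl, hm⟩
    exact ⟨sav_of_nz H hf hz, fun ε hε => rh_ord H hf hz hm hε⟩
  tfae_have 2 → 3 := by
    rintro ⟨h1, h2⟩
    refine ⟨savF_of_sav h1, fun ε hε => ⟨1 / 2, by norm_num, ?_⟩⟩
    refine (lsum_compl (h2 ε hε) (Eventually.of_forall fun n hn => ?_)).frequently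
    exact not_lt.1 hn
  tfae_have 3 → 1 := by
    rintro ⟨h1, h2⟩
    have hz := nz_of_savF H hf h1
    obtain ⟨m, hm⟩ := fin_order H 0
    refine ⟨hz, m, ?_, hm⟩
    by_contra hne
    have hd : 0 < |(m : ℝ) - ρ| := abs_pos.2 (sub_ne_zero.2 fun h => hne h.symm)
    set ε : ℝ := |(m : ℝ) - ρ| / 4 with hε
    have hε0 : 0 < ε := by positivity
    obtain ⟨η, hη, h3⟩ := h2 ε hε0
    have hll : Tendsto (fun n : ℕ => Real.log (Real.log n)) atTop atTop :=
      (Real.tendsto_log_atTop.comp Real.tendsto_log_atTop).comp tendsto_natCast_atTop_atTop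
    obtain ⟨n₀, hn₀⟩ := eventually_atTop.1 (hll.eventually (eventually_gt_atTop 0))
    obtain ⟨n, hn, h4, h5⟩ := inter_unbounded (rh_ord H hf hz hm hε0) hη h3 n₀
    have h6 : |f n - ρ * Real.log (Real.log n)| ≤ ε * Real.log (Real.log n) := h4
    have h7 := not_lt.1 h5
    have h8 := hn₀ n hn
    have h9 : |(m : ℝ) - ρ| * Real.log (Real.log n) ≤ 2 * ε * Real.log (Real.log n) := by
      rw [← abs_of_pos h8, ← abs_mul, abs_of_pos h8]
      have e1 : ((m : ℝ) - ρ) * Real.log (Real.log n) =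
          (f n - ρ * Real.log (Real.log n)) - (f n - m * Real.log (Real.log n)) := by ring
      rw [e1]
      refine (abs_sub _ _).trans ?_
      linarith
    have h10 := le_of_mul_le_mul_right h9 h8
    rw [hε] at h10
    linarith
  tfae_finish

end Pool.Agent.H424.BY
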