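import Pool.Agent.H424.BY.Near
import Pool.Agent.H424.BX.L2
import Pool.Agent.H424.BX.Exc
import Pool.Agent.H424.BX.Conv

/-!
# Partial Euler products of a system of primes: the number of large and of small values
-/

set_option autoImplicit false

open MeasureTheory Filter Topology Set Complex
open Pool.Agent.W189.TP (DS)
open Pool.Agent.TH949.TX
open Pool.Agent.TH942.ES
open Pool.Agent.TH942.LS (Dat)
open Pool.Agent.TH942.SL (DD)
open Pool.Agent.TH270.MS (Pl Sh sh_eq)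
open Pool.Agent.TH270.RS (cS' dat' DD_neg)
open Pool.Agent.H424.BX (cnt cnt_mono count_upper count_of_many many l2)

namespace Pool.Agent.H424.BY

variable {X : Type} {d : ℕ} {N : X → ℕ} {α : X → Fin d → ℂ} {Ψ : ℂ → ℂ}

/-- `Ψ` is the entire continuation of the Euler product, with polynomial growth across the central line -/
structure Ex (N : X → ℕ) (α : X → Fin d → ℂ) (Ψ : ℂ → ℂ) : Prop where
  E : Sys N α
  hreal : ∀ v k, (∑ i, zv N α v i ^ k).im = 0
  diff : Differentiable ℂ Ψ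
  grow : ∃ (η C : ℝ) (κ : ℕ), 0 < η ∧ ∀ s : ℂ, -η < s.re → ‖Ψ s‖ ≤ C * (1 + ‖s‖) ^ κ
  eq : ∀ s : ℂ, 1 / 2 < s.re → Ψ s = LE N α s

/-- the coefficients of the logarithm of the inverse Euler product -/
noncomputable def dP (N : X → ℕ) (α : X → Fin d → ℂ) (p : X × ℕ) : ℝ := -cP N α p

theorem AA_eq (E : Sys N α) (u : ℝ) : AA (dP N α) (lamP N) u = -Pl N α (Real.exp u) := by
  have := E.cnt
  obtain ⟨e, he⟩ := Countable.exists_injective_nat (X × ℕ)
  rw [← sh_eq E he u]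
  unfold AA Sh
  have h := tsum_cS (N := N) (α := α) he (fun c l => -(if l ≤ u then c else 0)) (fun l => by simp)
  have h1 : ∑' n, (if lamS N e n ≤ u then cS' N α e n else 0) =
      ∑' n, -(if lamS N e n ≤ u then cS N α e n else 0) := by
    refine tsum_congr fun n => ?_
    unfold cS'
    split_ifs <;> simp
  rw [h1, h]
  refine tsum_congr fun p => ?_
  unfold dP
  split_ifs <;> simp

theorem Pl_floor (Y : ℝ) (hY : 0 ≤ Y) : Pl N α (⌊Y⌋₊ : ℝ) = Pl N α Y := by
  unfold Pl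
  refine finsum_congr fun p => ?_
  have h : ((N p.1 : ℝ) ^ (p.2 + 1) ≤ (⌊Y⌋₊ : ℝ)) ↔ ((N p.1 : ℝ) ^ (p.2 + 1) ≤ Y) := by
    have e1 : (N p.1 : ℝ) ^ (p.2 + 1) = ((N p.1 ^ (p.2 + 1) : ℕ) : ℝ) := by push_cast; rfl
    rw [e1, Nat.cast_le, Nat.le_floor_iff hY]
  simp only [h]

theorem Pl_small (E : Sys N α) {Y : ℝ} (hY : Y < 2) : Pl N α Y = 0 := by
  rw [Pl_eq E]
  refine Finset.sum_eq_zero fun v hv => ?_
  rw [Set.Finite.mem_toFinset, Set.mem_ofPred_eq] at hv
  have := E.Ntwo v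
  linarith

/-- the mean square -/
theorem l2AA (H : Ex N α Ψ) {θ : ℝ} (hθ : 0 ≤ θ) (hz : ∀ s : ℂ, θ < s.re → Ψ s ≠ 0) {x : ℝ} (hx : θ < x) :
    Integrable fun u : ℝ => AA (dP N α) (lamP N) u ^ 2 * Real.exp (-(2 * x * u)) := by
  have E := H.E
  have := E.cnt
  obtain ⟨e, he⟩ := Countable.exists_injective_nat (X × ℕ)
  obtain ⟨η, C, κ, hη, hg⟩ := H.grow
  have h := l2 (dat' E he) hθ (Ψ := Ψ) (G := fun _ => 0) (C := |C|) (κ := κ) (A := 0) (A' := 0)
    (fun s _ => H.diff s) hz (fun s _ => differentiableAt_const _)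
    (fun s hs => by
      rw [zero_sub, DD_neg, E.exp_DD H.hreal he (by linarith), ← H.eq s (by linarith)])
    (fun s hs => by
      refine (hg s (by linarith)).trans ?_
      have h1 : 1 ≤ (1 + 1 / s.re) ^ κ := one_le_pow₀ (by
        have : 0 < 1 / s.re := by positivity
        linarith)
      have h2 : 0 ≤ (1 + ‖s‖) ^ κ := by positivity
      calc C * (1 + ‖s‖) ^ κ ≤ |C| * (1 + ‖s‖) ^ κ := mul_le_mul_of_nonneg_right (le_abs_self C) h2
        _ = |C| * (1 + ‖s‖) ^ κ * 1 := (mul_one _).symm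
        _ ≤ _ := by gcongr)
    (fun s _ => by simp) (fun s _ => by simp) hx
  refine h.congr (Eventually.of_forall fun u => ?_)
  simp only
  rw [AA_eq E, sh_eq E he]

theorem lamP_nonneg (E : Sys N α) (p : X × ℕ) : 0 ≤ lamP N p := by
  unfold lamP
  have := E.logN p.1
  positivity

theorem dP_sum (E : Sys N α) {t : ℝ} (ht : 1 < t) :
    Summable fun p : X × ℕ => |dP N α p| * Real.exp (-(t * lamP N p)) := by
  refine (E.cP_sum (σ := t) (by linarith)).congr fun p => ?_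
  unfold dP
  rw [abs_neg]

theorem exp_DS (H : Ex N α Ψ) {s : ℂ} (hs : 1 < s.re) : (Ψ s)⁻¹ = cexp (DS (dP N α) (lamP N) s) := by
  have E := H.E
  have := E.cnt
  obtain ⟨e, he⟩ := Countable.exists_injective_nat (X × ℕ)
  have h1 := E.exp_DD H.hreal he (s := s) (by linarith)
  have h2 : DS (dP N α) (lamP N) s = -DD (lamS N e) (cS N α e) s := by
    unfold DD DS
    rw [← tsum_neg]
    have h3 := tsum_cS (N := N) (α := α) he (fun c l => -((c : ℂ) * cexp (-(s * l)))) (fun l => by simp)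
    rw [h3]
    refine tsum_congr fun p => ?_
    unfold dP
    push_cast
    ring
  rw [h2, Complex.exp_neg, h1, H.eq s (by linarith)]

/-- the order of `Ψ` is finite everywhere -/
theorem fin_order (H : Ex N α Ψ) (s : ℂ) : ∃ k : ℕ, analyticOrderAt Ψ s = k := by
  have hne : analyticOrderAt Ψ s ≠ ⊤ := by
    intro htop
    rw [analyticOrderAt_eq_top] at htop
    have h1 : AnalyticOnNhd ℂ Ψ univ := H.diff.differentiableOn.analyticOnNhd isOpen_univ
    have h2 := h1.eqOn_zero_of_preconnected_of_eventuallyEq_zero isPreconnected_univ (mem_univ s) htop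
    have h3 : Ψ 2 = 0 := h2 (mem_univ _)
    have h4 := exp_DS H (s := 2) (by norm_num)
    rw [h3, inv_zero] at h4
    exact (Complex.exp_ne_zero _) h4.symm
  exact ⟨_, (ENat.natCast_toNat hne).symm⟩

theorem ord_inv (H : Ex N α Ψ) (s : ℂ) : ∃ k : ℕ, analyticOrderAt Ψ s = k ∧
    meromorphicOrderAt Ψ⁻¹ s = ((-(k : ℤ) : ℤ) : WithTop ℤ) := by
  obtain ⟨k, hk⟩ := fin_order H s
  refine ⟨k, hk, ?_⟩
  rw [meromorphicOrderAt_inv, (H.diff.analyticAt s).meromorphicOrderAt_eq, hk]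
  rfl

theorem ord_pos (H : Ex N α Ψ) (s : ℂ) : ∃ k : ℕ, analyticOrderAt Ψ s = k ∧
    meromorphicOrderAt Ψ s = (((k : ℤ) : ℤ) : WithTop ℤ) := by
  obtain ⟨k, hk⟩ := fin_order H s
  refine ⟨k, hk, ?_⟩
  rw [(H.diff.analyticAt s).meromorphicOrderAt_eq, hk]
  rfl

theorem inv_ne (H : Ex N α Ψ) {s : ℂ} (h : Ψ s = 0) : meromorphicOrderAt Ψ⁻¹ s ≠ 0 := by
  obtain ⟨k, hk1, hk⟩ := ord_inv H s
  rw [hk]
  intro h1
  have h2 : (-(k : ℤ)) = 0 := by exact_mod_cast h1
  have h3 : k = 0 := by omega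
  rw [h3, Nat.cast_zero, (H.diff.analyticAt s).analyticOrderAt_eq_zero] at hk1
  exact hk1 h

theorem pos_ne (H : Ex N α Ψ) {s : ℂ} (h : Ψ s = 0) : meromorphicOrderAt Ψ s ≠ 0 := by
  obtain ⟨k, hk1, hk⟩ := ord_pos H s
  rw [hk]
  intro h1
  have h2 : (k : ℤ) = 0 := by exact_mod_cast h1
  have h3 : k = 0 := by omega
  rw [h3, Nat.cast_zero, (H.diff.analyticAt s).analyticOrderAt_eq_zero] at hk1
  exact hk1 h

/-- the number of large values -/
theorem upper_count (H : Ex N α Ψ) {f : ℕ → ℝ} {B : ℝ} (hf : ∀ n : ℕ, 1 ≤ n → |f n + Pl N α n| ≤ B)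
    {θ : ℝ} (hθ : 0 ≤ θ) (hz : ∀ s : ℂ, θ < s.re → Ψ s ≠ 0) {κ : ℝ} (h1 : θ < κ) (h2 : κ ≤ θ + 1 / 2)
    {ε : ℝ} (hε : 0 < ε) :
    ∀ᶠ M : ℕ in atTop, (cnt {n : ℕ | (n : ℝ) ^ κ < |f n|} M : ℝ) ≤ (M : ℝ) ^ (1 - 2 * (κ - θ) + ε) := by
  set x : ℝ := θ + ε / 4 with hx
  have hx0 : 0 < x := by rw [hx]; positivity
  have h3 := l2AA H hθ hz (x := x) (by rw [hx]; linarith)
  set g : ℕ → ℝ := fun n => if n = 0 then 0 else f n with hg
  have hB0 : 0 ≤ B := (abs_nonneg _).trans (hf 1 le_rfl)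
  -- measurability
  have hm : Measurable fun u : ℝ => g ⌊Real.exp u⌋₊ ^ 2 * Real.exp (-(2 * x * u)) := by
    have e1 : Measurable fun u : ℝ => g ⌊Real.exp u⌋₊ :=
      (measurable_from_nat (f := g)).comp (Nat.measurable_floor.comp Real.measurable_exp)
    exact (e1.pow_const 2).mul (by fun_prop)
  have h4 : Integrable fun u : ℝ => g ⌊Real.exp u⌋₊ ^ 2 * Real.exp (-(2 * x * u)) := by
    have k1 : Integrable fun u : ℝ => 2 * (AA (dP N α) (lamP N) u ^ 2 * Real.exp (-(2 * x * u))) +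
        (Ici (0 : ℝ)).indicator (fun u : ℝ => 2 * B ^ 2 * Real.exp (-(2 * x * u))) u := by
      refine (h3.const_mul 2).add ((integrable_indicator_iff measurableSet_Ici).2 ?_)
      rw [integrableOn_Ici_iff_integrableOn_Ioi]
      have h9 : IntegrableOn (fun u : ℝ => 2 * B ^ 2 * Real.exp (-(2 * x) * u)) (Ioi 0) :=
        (integrableOn_exp_mul_Ioi (a := -(2 * x)) (by linarith) 0).const_mul (2 * B ^ 2)
      refine h9.congr_fun (fun u _ => ?_) measurableSet_Ioi
      simp only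
      congr 2
      ring
    refine k1.mono' hm.aestronglyMeasurable (Eventually.of_forall fun u => ?_)
    rw [Real.norm_eq_abs, abs_of_nonneg (by positivity)]
    rcases lt_or_ge u 0 with hu | hu
    · have e1 : ⌊Real.exp u⌋₊ = 0 := by
        rw [Nat.floor_eq_zero]
        have := Real.exp_lt_exp.2 hu
        rwa [Real.exp_zero] at this
      rw [e1, hg]
      simp only [if_true]
      have : 0 ≤ (Ici (0 : ℝ)).indicator (fun u : ℝ => 2 * B ^ 2 * Real.exp (-(2 * x * u))) u :=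
        indicator_nonneg (fun v _ => by positivity) u
      rw [zero_pow two_ne_zero, zero_mul]
      have h5 : 0 ≤ 2 * (AA (dP N α) (lamP N) u ^ 2 * Real.exp (-(2 * x * u))) := by positivity
      linarith
    · have e1 : 1 ≤ ⌊Real.exp u⌋₊ := Nat.le_floor (by
        push_cast
        exact Real.one_le_exp hu)
      rw [indicator_of_mem (show u ∈ Ici (0 : ℝ) from hu)]
      have e2 : g ⌊Real.exp u⌋₊ = f ⌊Real.exp u⌋₊ := by
        rw [hg]
        simp only
        rw [if_neg (by omega)]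
      have e3 := hf _ e1
      rw [Pl_floor _ (Real.exp_pos u).le] at e3
      rw [e2, AA_eq H.E]
      set P := Pl N α (Real.exp u)
      set F := f ⌊Real.exp u⌋₊
      have e4 : F ^ 2 ≤ 2 * (-P) ^ 2 + 2 * B ^ 2 := by
        have e5 : (F + P) ^ 2 ≤ B ^ 2 := by
          rw [← sq_abs (F + P)]
          exact pow_le_pow_left₀ (abs_nonneg _) e3 2
        nlinarith [sq_nonneg (F - (-P) - (-P))]
      have := Real.exp_pos (-(2 * x * u))
      nlinarith
  obtain ⟨C, hC0, hC⟩ := count_upper (f := g) (κ := κ) (x := x) hx0.le (by rw [hx]; linarith) h4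
  have h5 : ∀ᶠ M : ℕ in atTop, C ≤ (M : ℝ) ^ (ε / 2) :=
    ((tendsto_rpow_atTop (show 0 < ε / 2 by positivity)).comp tendsto_natCast_atTop_atTop).eventually
      (eventually_ge_atTop C)
  filter_upwards [h5, eventually_ge_atTop 1] with M k1 k2
  have hM : (1 : ℝ) ≤ M := by exact_mod_cast k2
  have k3 : cnt {n : ℕ | (n : ℝ) ^ κ < |f n|} M ≤ cnt {n : ℕ | (n : ℝ) ^ κ < |g n|} M := by
    refine cnt_mono fun n hn _ h => ?_
    have h' : (n : ℝ) ^ κ < |f n| := h
    show (n : ℝ) ^ κ < |g n|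
    rw [hg]
    simp only
    rwa [if_neg (by omega)]
  refine (show (cnt {n : ℕ | (n : ℝ) ^ κ < |f n|} M : ℝ) ≤ cnt {n : ℕ | (n : ℝ) ^ κ < |g n|} M by
    exact_mod_cast k3).trans ((hC M k2).trans ?_)
  have e1 : (M : ℝ) ^ (1 - 2 * (κ - θ) + ε) = (M : ℝ) ^ (ε / 2) * (M : ℝ) ^ (1 - 2 * (κ - x)) := by
    rw [← Real.rpow_add (by linarith)]
    congr 1
    rw [hx]
    ring
  rw [e1]
  gcongr

/-- zeros make many of the products large -/
theorem up_count (H : Ex N α Ψ) {f : ℕ → ℝ} {B : ℝ} (hf : ∀ n : ℕ, 1 ≤ n → |f n + Pl N α n| ≤ B)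
    {c : ℝ} (hc0 : 0 ≤ c) {ρ : ℂ} (hρ : c < ρ.re) (h0 : Ψ ρ = 0) {δ : ℝ} (hδ : 0 < δ) (C : ℝ) :
    ∀ᶠ M : ℕ in atTop, (M : ℝ) ^ (1 - δ) ≤ cnt {n : ℕ | C * (n : ℝ) ^ c < f n} M := by
  have E := H.E
  have := E.cnt
  have hB0 : 0 ≤ B := (abs_nonneg _).trans (hf 1 le_rfl)
  set c' : ℝ := (c + ρ.re) / 2 with hc'
  refine count_of_many (A := AA (dP N α) (lamP N)) (g := f) (B := B) (c := c) (c' := c')
    (by rw [hc']; linarith) hc0 (fun u hu => ?_) (fun lam δ' hl hl1 hδ' => ?_) hδ C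
  · have e1 : 1 ≤ ⌊Real.exp u⌋₊ := Nat.le_floor (by
      push_cast
      exact Real.one_le_exp hu)
    have e3 := hf _ e1
    rw [Pl_floor _ (Real.exp_pos u).le] at e3
    rw [AA_eq E]
    have := (abs_le.1 e3).1
    nlinarith
  · refine many (lamP_nonneg E) (fun t ht => dP_sum E ht) (F := Ψ⁻¹)
      (fun s _ => (H.diff.analyticAt s).meromorphicAt.inv)
      (fun s hs => exp_DS H hs) (c := c') (by rw [hc']; linarith) ?_ ⟨ρ, by rw [hc']; linarith, inv_ne H h0⟩ ?_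
      hl hl1 hδ'
    · intro x _
      obtain ⟨k, -, hk⟩ := ord_inv H (x : ℂ)
      rw [hk]
      have : -(k : ℤ) ≤ 0 := by omega
      exact_mod_cast this
    · intro b' hb' hbs x hx
      have hb0 : 0 ≤ b' := by
        have : 0 ≤ c' := by rw [hc']; linarith
        linarith
      refine l2AA H hb0 (fun s hs hs0 => ?_) hx
      have h1 := hbs s (inv_ne H hs0)
      linarith

/-- without real zeros, zeros make many of the products small -/
theorem down_count (H : Ex N α Ψ) {f : ℕ → ℝ} {B : ℝ} (hf : ∀ n : ℕ, 1 ≤ n → |f n + Pl N α n| ≤ B)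
    {c : ℝ} (hc0 : 0 ≤ c) (hreal : ∀ s : ℝ, c < s → Ψ s ≠ 0) {ρ : ℂ} (hρ : c < ρ.re) (h0 : Ψ ρ = 0)
    {δ : ℝ} (hδ : 0 < δ) (C : ℝ) :
    ∀ᶠ M : ℕ in atTop, (M : ℝ) ^ (1 - δ) ≤ cnt {n : ℕ | f n < -(C * (n : ℝ) ^ c)} M := by
  have E := H.E
  have := E.cnt
  have hB0 : 0 ≤ B := (abs_nonneg _).trans (hf 1 le_rfl)
  set c' : ℝ := (c + ρ.re) / 2 with hc'
  have hcc : c < c' := by rw [hc']; linarith
  have hs' : ∀ t : ℝ, 1 < t → Summable fun p : X × ℕ => |cP N α p| * Real.exp (-(t * lamP N p)) :=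
    fun t ht => E.cP_sum (by linarith)
  have hAA : ∀ u : ℝ, AA (cP N α) (lamP N) u = -AA (dP N α) (lamP N) u := by
    intro u
    unfold AA dP
    rw [← tsum_neg]
    refine tsum_congr fun p => ?_
    split_ifs <;> simp
  have hE' : ∀ s : ℂ, 1 < s.re → Ψ s = cexp (DS (cP N α) (lamP N) s) := by
    intro s hs
    have h1 := exp_DS H hs
    have h2 : DS (dP N α) (lamP N) s = -DS (cP N α) (lamP N) s := by
      unfold DS dP
      rw [← tsum_neg]
      refine tsum_congr fun p => ?_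
      push_cast
      ring
    rw [h2, Complex.exp_neg] at h1
    exact inv_injective h1
  have key := count_of_many (A := AA (cP N α) (lamP N)) (g := fun n : ℕ => -f n) (B := B) (c := c) (c' := c')
    hcc hc0 (fun u hu => ?_) (fun lam δ' hl hl1 hδ' => ?_) hδ C
  · refine key.mono fun M hM => hM.trans ?_
    have : cnt {n : ℕ | C * (n : ℝ) ^ c < -f n} M ≤ cnt {n : ℕ | f n < -(C * (n : ℝ) ^ c)} M := by
      refine cnt_mono fun n _ _ hn => ?_
      have hn' : C * (n : ℝ) ^ c < -f n := hn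
      show f n < -(C * (n : ℝ) ^ c)
      linarith
    exact_mod_cast this
  · have e1 : 1 ≤ ⌊Real.exp u⌋₊ := Nat.le_floor (by
      push_cast
      exact Real.one_le_exp hu)
    have e3 := hf _ e1
    rw [Pl_floor _ (Real.exp_pos u).le] at e3
    rw [hAA, AA_eq E]
    have := (abs_le.1 e3).2
    nlinarith
  · refine many (lamP_nonneg E) hs' (F := Ψ) (fun s _ => (H.diff.analyticAt s).meromorphicAt)
      hE' (c := c') (by linarith) ?_ ⟨ρ, by rw [hc']; linarith, pos_ne H h0⟩ ?_ hl hl1 hδ'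
    · intro x hx
      obtain ⟨k, hk1, hk⟩ := ord_pos H (x : ℂ)
      rw [hk]
      have h1 : Ψ x ≠ 0 := hreal x (by linarith)
      rw [← (H.diff.analyticAt (x : ℂ)).analyticOrderAt_eq_zero] at h1
      rw [h1] at hk1
      have h2 : k = 0 := by exact_mod_cast hk1.symm
      rw [h2]
      simp
    · intro b' hb' hbs x hx
      have h5 := l2AA H (θ := b') (by linarith) (fun s hs hs0 => ?_) hx
      · refine h5.congr (Eventually.of_forall fun u => ?_)
        simp only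
        rw [hAA, neg_sq]
      · have h1 := hbs s (pos_ne H hs0)
        linarith

end Pool.Agent.H424.BY
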