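import Pool.Agent.TH270.MS.Real

/-!
# Partial Euler products over the primes and over the prime powers of a system
-/

set_option autoImplicit false

open MeasureTheory Filter Topology Set Complex
open Pool.Agent.TH942.ES
open Pool.Agent.TH270.MS (Pl)

namespace Pool.Agent.H424.BY

variable {X : Type} {d : ℕ} {N : X → ℕ} {α : X → Fin d → ℂ}

/-- the logarithm of the product of the inverse local factors at the centre over the primes `≤ Y` -/
noncomputable def Lp (N : X → ℕ) (α : X → Fin d → ℂ) (Y : ℝ) : ℝ :=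
  ∑ᶠ (v : X) (_ : (N v : ℝ) ≤ Y), cv N α v

/-- the part of the logarithm of the local factor which is not in the partial sum -/
noncomputable def tl (N : X → ℕ) (α : X → Fin d → ℂ) (Y : ℝ) (v : X) : ℝ :=
  ∑' k : ℕ, if (N v : ℝ) ^ (k + 1) ≤ Y then 0 else cP N α (v, k)

theorem r_le (E : Sys N α) (v : X) : 1 / √(N v : ℝ) ≤ 3 / 4 := by
  have hq : 0 < √(N v : ℝ) := Real.sqrt_pos.2 (E.Npos v)
  rw [div_le_iff₀ hq]
  have : 4 / 3 ≤ √(N v : ℝ) := by
    apply Real.le_sqrt_of_sq_le
    have := E.Ntwo v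
    norm_num
    linarith
  linarith

theorem r_sq (E : Sys N α) (v : X) : (1 / √(N v : ℝ)) ^ 2 = 1 / N v := by
  rw [div_pow, one_pow, Real.sq_sqrt (E.Npos v).le]

theorem r_cube (E : Sys N α) (v : X) : (1 / √(N v : ℝ)) ^ 3 = (N v : ℝ) ^ (-(3 / 2 : ℝ)) := by
  have h := E.Npos v
  have e1 : 1 / √(N v : ℝ) = (N v : ℝ) ^ (-(1 / 2 : ℝ)) := by
    rw [Real.rpow_neg h.le, ← Real.sqrt_eq_rpow, one_div]
  rw [e1, ← Real.rpow_natCast, ← Real.rpow_mul h.le]
  norm_num

/-- the coefficients of one prime are summable -/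
theorem cP_summ (E : Sys N α) (v : X) : Summable fun k : ℕ => |cP N α (v, k)| := by
  have hr0 : 0 ≤ 1 / √(N v : ℝ) := by positivity
  have hr := r_le E v
  refine Summable.of_nonneg_of_le (fun k => abs_nonneg _) (fun k => E.cP_abs (v, k)) ?_
  simp only [pow_succ]
  exact ((summable_geometric_of_lt_one hr0 (by linarith)).mul_right _).mul_left _

theorem cv_tsum (E : Sys N α) (hreal : ∀ v k, (∑ i, zv N α v i ^ k).im = 0) (v : X) :
    ∑' k : ℕ, cP N α (v, k) = -cv N α v := by
  have h1 := E.inner hreal (s := 0) (by simp) v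
  have h2 : HasSum (fun k : ℕ => (cP N α (v, k) : ℂ)) (∑ i, -log (1 - zv N α v i * xv N v 0)) := by
    refine h1.congr_fun fun k => ?_
    simp
  have h3 := (Complex.hasSum_re h2).tsum_eq
  simp only [Complex.ofReal_re] at h3
  rw [h3]
  unfold cv xv
  simp [Finset.sum_neg_distrib]

/-- the bound of the tail of one local factor -/
theorem tl_le (E : Sys N α) {Y : ℝ} {v : X} (hv : (N v : ℝ) ≤ Y) :
    |tl N α Y v| ≤ 4 * d * (N v : ℝ) ^ (-(3 / 2 : ℝ)) + if Y < (N v : ℝ) ^ 2 then 4 * d * (1 / (N v : ℝ)) else 0 := by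
  set r : ℝ := 1 / √(N v : ℝ) with hr
  have hr0 : 0 ≤ r := by rw [hr]; positivity
  have hr1 : r ≤ 3 / 4 := r_le E v
  have hN := E.Ntwo v
  have hg : Summable fun k : ℕ => r ^ k := summable_geometric_of_lt_one hr0 (by linarith)
  have hgs : ∑' k : ℕ, r ^ k ≤ 4 := by
    rw [tsum_geometric_of_lt_one hr0 (by linarith)]
    have h1 : (1 / 4 : ℝ) ≤ 1 - r := by linarith
    calc (1 - r)⁻¹ ≤ (1 / 4 : ℝ)⁻¹ := inv_anti₀ (by norm_num) h1
      _ = 4 := by norm_num
  set f : ℕ → ℝ := fun k => if (N v : ℝ) ^ (k + 1) ≤ Y then 0 else cP N α (v, k) with hf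
  have hfa : ∀ k, |f k| ≤ |cP N α (v, k)| := by
    intro k
    rw [hf]
    simp only
    split_ifs
    · rw [abs_zero]
      exact abs_nonneg _
    · exact le_rfl
  have hfs : Summable f := Summable.of_norm_bounded (cP_summ E v) fun k => by
    rw [Real.norm_eq_abs]
    exact hfa k
  have hf0 : f 0 = 0 := by
    rw [hf]
    simp only
    rw [if_pos (by simpa using hv)]
  have hbd : ∀ k, |cP N α (v, k)| ≤ d * r ^ (k + 1) := fun k => E.cP_abs (v, k)
  have hkey : ∀ j : ℕ, (∀ i < j, f i = 0) → |tl N α Y v| ≤ d * r ^ (j + 1) * 4 := by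
    intro j hj
    have e1 : tl N α Y v = ∑' k, f (k + j) := by
      unfold tl
      rw [← hf, ← hfs.sum_add_tsum_nat_add j, Finset.sum_eq_zero (fun i hi => hj i (Finset.mem_range.1 hi)),
        zero_add]
    have e2 : ∀ k, ‖f (k + j)‖ ≤ d * r ^ (j + 1) * r ^ k := by
      intro k
      rw [Real.norm_eq_abs]
      refine (hfa _).trans ((hbd _).trans (le_of_eq ?_))
      ring
    rw [e1, ← Real.norm_eq_abs]
    refine (tsum_of_norm_bounded (hg.mul_left (d * r ^ (j + 1))).hasSum e2).trans ?_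
    rw [tsum_mul_left]
    gcongr
  by_cases h : Y < (N v : ℝ) ^ 2
  · rw [if_pos h]
    have h1 := hkey 1 (fun i hi => by
      have : i = 0 := by omega
      rw [this, hf0])
    have h2 : r ^ (1 + 1) = 1 / N v := r_sq E v
    rw [h2] at h1
    have h3 : 0 ≤ 4 * d * (N v : ℝ) ^ (-(3 / 2 : ℝ)) := by positivity
    linarith
  · rw [if_neg h, add_zero]
    have h1 := hkey 2 (fun i hi => by
      have : i = 0 ∨ i = 1 := by omega
      rcases this with rfl | rfl
      · exact hf0
      · rw [hf]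
        simp only
        rw [if_pos (by simpa using not_lt.1 h)])
    have h2 : r ^ (2 + 1) = (N v : ℝ) ^ (-(3 / 2 : ℝ)) := r_cube E v
    rw [h2] at h1
    linarith

/-- the sum of the `1/N(v)` over `√Y < N(v) ≤ Y` is bounded -/
theorem mert (E : Sys N α) : ∃ M : ℝ, 0 ≤ M ∧ ∀ Y : ℝ,
    ∑ v ∈ (E.fin_le Y).toFinset, (if Y < (N v : ℝ) ^ 2 then 1 / (N v : ℝ) else 0) ≤ M := by
  obtain ⟨C, σ₀, hσ₀, hC⟩ := E.log_sum
  set Y₀ : ℝ := Real.exp (1 / (σ₀ / 2)) with hY₀
  set M₀ : ℝ := ∑ v ∈ (E.fin_le Y₀).toFinset, (1 : ℝ) with hM₀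
  have hM₀0 : 0 ≤ M₀ := Finset.sum_nonneg fun _ _ => zero_le_one
  refine ⟨M₀ + 2 * Real.exp 1 * |C|, by positivity, fun Y => ?_⟩
  have hnn : 0 ≤ 2 * Real.exp 1 * |C| := by positivity
  by_cases hY : Y ≤ Y₀
  · have h1 : ∑ v ∈ (E.fin_le Y).toFinset, (if Y < (N v : ℝ) ^ 2 then 1 / (N v : ℝ) else 0) ≤
        ∑ v ∈ (E.fin_le Y).toFinset, (1 : ℝ) := by
      refine Finset.sum_le_sum fun v _ => ?_
      have := E.Ntwo v
      split_ifs
      · rw [div_le_one (by linarith)]
        linarith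
      · norm_num
    have h2 : ∑ v ∈ (E.fin_le Y).toFinset, (1 : ℝ) ≤ M₀ := by
      refine Finset.sum_le_sum_of_subset_of_nonneg (fun v hv => ?_) fun _ _ _ => zero_le_one
      rw [Set.Finite.mem_toFinset, Set.mem_ofPred_eq] at hv ⊢
      linarith
    linarith
  · push Not at hY
    have hY1 : 0 < Y := (Real.exp_pos _).trans hY
    have hl : 1 / (σ₀ / 2) < Real.log Y := by
      rw [Real.lt_log_iff_exp_lt hY1]
      exact hY
    have hl0 : 0 < Real.log Y := lt_trans (by positivity) hl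
    set σ : ℝ := 1 / Real.log Y with hσ
    have hσ0 : 0 < σ := by rw [hσ]; positivity
    have hσ1 : σ < σ₀ := by
      have : σ < σ₀ / 2 := by
        rw [hσ, div_lt_iff₀ hl0]
        rw [div_lt_iff₀ (by positivity)] at hl
        linarith
      linarith
    obtain ⟨h1, h2⟩ := hC σ hσ0 hσ1
    have h3 : ∀ v ∈ (E.fin_le Y).toFinset, (if Y < (N v : ℝ) ^ 2 then 1 / (N v : ℝ) else 0) ≤
        2 * Real.exp 1 * σ * (Real.log (N v) * (N v : ℝ) ^ (-(1 + σ))) := by
      intro v hv
      rw [Set.Finite.mem_toFinset, Set.mem_ofPred_eq] at hv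
      have hN := E.Npos v
      have hlN := E.logN v
      have hnn : 0 ≤ 2 * Real.exp 1 * σ * (Real.log (N v) * (N v : ℝ) ^ (-(1 + σ))) := by positivity
      split_ifs with h4
      · have e1 : (N v : ℝ) ^ (-(1 + σ)) = 1 / (N v : ℝ) * Real.exp (-(σ * Real.log (N v))) := by
          rw [← E.rpow_split, Real.rpow_def_of_pos hN]
          congr 2
          ring
        have e2 : σ * Real.log (N v) ≤ 1 := by
          rw [hσ, div_mul_eq_mul_div, one_mul, div_le_one hl0]
          exact Real.log_le_log hN hv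
        have e3 : Real.log Y ≤ 2 * Real.log (N v) := by
          have := Real.log_le_log hY1 h4.le
          rw [Real.log_pow] at this
          push_cast at this
          exact this
        have e4 : 1 ≤ 2 * σ * Real.log (N v) := by
          rw [hσ]
          rw [mul_one_div, div_mul_eq_mul_div, le_div_iff₀ hl0]
          linarith
        have e5 : 1 ≤ Real.exp 1 * Real.exp (-(σ * Real.log (N v))) := by
          rw [← Real.exp_add]
          exact Real.one_le_exp (by linarith)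
        rw [e1]
        have e6 : 1 ≤ (2 * σ * Real.log (N v)) * (Real.exp 1 * Real.exp (-(σ * Real.log (N v)))) := by
          nlinarith
        calc 1 / (N v : ℝ) = 1 / (N v : ℝ) * 1 := (mul_one _).symm
          _ ≤ 1 / (N v : ℝ) * ((2 * σ * Real.log (N v)) *
              (Real.exp 1 * Real.exp (-(σ * Real.log (N v))))) := by gcongr
          _ = _ := by ring
      · exact hnn
    have h4 := Finset.sum_le_sum h3
    rw [← Finset.mul_sum] at h4
    have h5 : ∑ v ∈ (E.fin_le Y).toFinset, Real.log (N v) * (N v : ℝ) ^ (-(1 + σ)) ≤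
        ∑' v, Real.log (N v) * (N v : ℝ) ^ (-(1 + σ)) :=
      h1.sum_le_tsum _ fun v _ => by
        have := E.logN v
        positivity
    have h6 : 2 * Real.exp 1 * σ * ∑ v ∈ (E.fin_le Y).toFinset, Real.log (N v) * (N v : ℝ) ^ (-(1 + σ)) ≤
        2 * Real.exp 1 * |C| := by
      calc _ ≤ 2 * Real.exp 1 * σ * ∑' v, Real.log (N v) * (N v : ℝ) ^ (-(1 + σ)) := by gcongr
        _ = 2 * Real.exp 1 * (σ * ∑' v, Real.log (N v) * (N v : ℝ) ^ (-(1 + σ))) := by ring
        _ ≤ 2 * Real.exp 1 * |C| := by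
          gcongr
          exact h2.trans (le_abs_self C)
    linarith

/-- the partial sums over the prime powers, prime by prime -/
theorem Pl_eq (E : Sys N α) (Y : ℝ) : Pl N α Y =
    ∑ v ∈ (E.fin_le Y).toFinset, ∑' k : ℕ, (if (N v : ℝ) ^ (k + 1) ≤ Y then cP N α (v, k) else 0) := by
  have hfin := E.finS Y
  have e4 : Pl N α Y = ∑ p ∈ hfin.toFinset, cP N α p :=
    finsum_mem_eq_finite_toFinset_sum (fun p : X × ℕ => cP N α p) hfin
  set F : X × ℕ → ℝ := fun p => if (N p.1 : ℝ) ^ (p.2 + 1) ≤ Y then cP N α p else 0 with hF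
  have hsupp : ∀ p, p ∉ hfin.toFinset → F p = 0 := by
    intro p hp
    rw [hF]
    simp only
    rw [if_neg]
    intro h
    exact hp (hfin.mem_toFinset.2 h)
  have hFs : Summable F := summable_of_ne_finset_zero hsupp
  have e5 : ∑ p ∈ hfin.toFinset, cP N α p = ∑' p, F p := by
    rw [tsum_eq_sum hsupp]
    refine Finset.sum_congr rfl fun p hp => ?_
    rw [hF]
    simp only
    rw [if_pos (show (N p.1 : ℝ) ^ (p.2 + 1) ≤ Y from hfin.mem_toFinset.1 hp)]
  rw [e4, e5, hFs.tsum_prod]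
  rw [tsum_eq_sum (s := (E.fin_le Y).toFinset)]
  intro v hv
  have hv' : Y < N v := by
    rw [Set.Finite.mem_toFinset, Set.mem_ofPred_eq, not_le] at hv
    exact hv
  refine (tsum_congr fun k => ?_).trans tsum_zero
  rw [hF]
  simp only
  rw [if_neg]
  rw [not_le]
  refine lt_of_lt_of_le hv' (le_self_pow₀ ?_ (by omega))
  have := E.Ntwo v
  linarith

/-- **the two partial products differ by a bounded factor** -/
theorem near (E : Sys N α) (hreal : ∀ v k, (∑ i, zv N α v i ^ k).im = 0) :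
    ∃ B : ℝ, 0 ≤ B ∧ ∀ Y : ℝ, |Lp N α Y + Pl N α Y| ≤ B := by
  obtain ⟨M, hM0, hM⟩ := mert E
  have hs := E.sum (3 / 2) (by norm_num)
  refine ⟨4 * d * ∑' v, (N v : ℝ) ^ (-(3 / 2 : ℝ)) + 4 * d * M, by
    have : 0 ≤ ∑' v, (N v : ℝ) ^ (-(3 / 2 : ℝ)) := tsum_nonneg fun v => by positivity
    positivity, fun Y => ?_⟩
  have e1 : Lp N α Y = ∑ v ∈ (E.fin_le Y).toFinset, cv N α v :=
    finsum_mem_eq_finite_toFinset_sum (fun v : X => cv N α v) (E.fin_le Y)
  have e2 : Lp N α Y + Pl N α Y = -∑ v ∈ (E.fin_le Y).toFinset, tl N α Y v := by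
    rw [e1, Pl_eq E, ← Finset.sum_add_distrib, ← Finset.sum_neg_distrib]
    refine Finset.sum_congr rfl fun v _ => ?_
    have h1 := cv_tsum E hreal v
    have s0 := (cP_summ E v).of_abs
    have s1 : Summable fun k : ℕ => if (N v : ℝ) ^ (k + 1) ≤ Y then cP N α (v, k) else 0 :=
      Summable.of_norm_bounded (cP_summ E v) fun k => by
        rw [Real.norm_eq_abs]
        split_ifs
        · exact le_rfl
        · rw [abs_zero]
          exact abs_nonneg _
    have s2 : Summable fun k : ℕ => if (N v : ℝ) ^ (k + 1) ≤ Y then 0 else cP N α (v, k) :=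
      Summable.of_norm_bounded (cP_summ E v) fun k => by
        rw [Real.norm_eq_abs]
        split_ifs
        · rw [abs_zero]
          exact abs_nonneg _
        · exact le_rfl
    have h2 : ∑' k : ℕ, cP N α (v, k) = ∑' k : ℕ, (if (N v : ℝ) ^ (k + 1) ≤ Y then cP N α (v, k) else 0) +
        tl N α Y v := by
      unfold tl
      rw [← s1.tsum_add s2]
      refine tsum_congr fun k => ?_
      split_ifs <;> simp
    linarith
  rw [e2, abs_neg]
  refine (Finset.abs_sum_le_sum_abs _ _).trans ?_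
  have h1 : ∀ v ∈ (E.fin_le Y).toFinset, |tl N α Y v| ≤ 4 * d * (N v : ℝ) ^ (-(3 / 2 : ℝ)) +
      4 * d * (if Y < (N v : ℝ) ^ 2 then 1 / (N v : ℝ) else 0) := by
    intro v hv
    rw [Set.Finite.mem_toFinset, Set.mem_ofPred_eq] at hv
    refine (tl_le E hv).trans (le_of_eq ?_)
    split_ifs <;> ring
  refine (Finset.sum_le_sum h1).trans ?_
  rw [Finset.sum_add_distrib, ← Finset.mul_sum, ← Finset.mul_sum]
  refine add_le_add ?_ ?_
  · refine mul_le_mul_of_nonneg_left ?_ (by positivity)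
    exact hs.sum_le_tsum _ fun v _ => by positivity
  · exact mul_le_mul_of_nonneg_left (hM Y) (by positivity)

end Pool.Agent.H424.BY
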